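import Pool.Agent.R942.MC.Final

/-!
# Every numerical semigroup of type `t > 1` is realized by an arithmetically Cohen-Macaulay
projective monomial curve of type `t`

Let `T` be a numerical semigroup with Frobenius number `F`, `PF` the set of its pseudo-Frobenius
numbers, `t` their number, `f_1` the smallest one, and `G` the set of the positive integers not in `T`
that are not pseudo-Frobenius numbers. Let `N = F + 1`, `L = 10 N²`, `d = 2 L + 1 - f_1` and
`X_g = L + 3 N (1 + g)` for `g ∈ G`. The degrees of the curve are `0`, `d`, the `X_g`, and the elements
`x ≤ L` of `T` that are not of the form `d + f - X_g` with `f ∈ PF`, `g ∈ G`.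

Let `Y` be the set of these degrees without `0` and `d`. The semigroup generated by the `(a, d - a)` is
`{(x, y) : x ∈ T, y ∈ T', d ∣ x + y}`, where the semigroup `T'` consists of `0`, the `d - r` with
`r ∈ Y ∪ G`, and the numbers `≥ d`. So the curve is arithmetically Cohen-Macaulay. The holes
`d + f - X_g` make `d + g = X_g + (d + g - X_g)` but not `d + f` a sum of two degrees, and give the
duality: each element of the Apery set divides one of the elements of degree three that correspond to
the `d + f`, `f ∈ PF`. So the socle of the Artinian reduction has dimension `t`.
-/

set_option autoImplicit false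

namespace Pool.Agent.Results.MP_4f2529_ag.EveryNumericalSemigroup

open Pool.Agent.R942.MC

/-- **Q1: yes.** For every numerical semigroup `T` of type `t > 1` there is a projective monomial
curve `C` with `S_C = T` which is arithmetically Cohen-Macaulay of type `t` (over every field). -/
theorem result.{u} (T : AddSubmonoid ℕ) (hT : ((T : Set ℕ)ᶜ).Finite) (ht : 1 < type T) :
    ∃ C : MonomialCurve, C.semigroup = T ∧
      ∀ (k : Type u) [Field k], C.IsACM k ∧ C.cmType k = type T :=
  main T hT ht

end Pool.Agent.Results.MP_4f2529_ag.EveryNumericalSemigroup
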